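import Pool.Agent.W788.NW.Stm

/-!
# Project NW: part FIN3
-/

set_option autoImplicit false

open Finset Filter Topology

namespace Pool.Agent.W589.NW

open Pool.Agent.W788.NV Pool.Agent.W788.NW

lemma one_lt_log {n : ℕ} (hn : 3 ≤ n) : 1 < Real.log n := by
  have h3 : (3:ℝ) ≤ n := by exact_mod_cast hn
  have h1 : Real.exp 1 < 3 := by
    have := Real.exp_one_lt_d9
    linarith
  rw [Real.lt_log_iff_exp_lt (by linarith)]
  linarith

lemma mem_tm (h2 : S_UPP) {q : ℕ} {θ : ℝ} {Δ : ℕ} (hq : 1 ≤ q) (hθ : 0 < θ) (hθ1 : θ ≤ 1)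
    (hΔ : 1 ≤ Δ) {V : Type} [Fintype V] [DecidableEq V] (G : SimpleGraph V) (x0 : V → Fin q)
    (μ : (V → Fin q) → ℝ) (hd : ∀ v, 1 ≤ dg G v) (hD : ∀ v, dg G v ≤ Δ)
    (hn : 3 ≤ Fintype.card V) (hμ : IsStat G q θ μ) (δ : ℝ) (hδ : 0 < δ) (hδ1 : δ < 1) :
    0 ≤ Real.log (Fintype.card V * Δ / δ) / θ ∧
    Real.log (Fintype.card V * Δ / δ) / θ ∈
      {t : ℝ | 0 ≤ t ∧ tv (law G q θ x0 t) μ ≤ δ} := by
  have hn' : (3:ℝ) ≤ Fintype.card V := by exact_mod_cast hn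
  have hΔ' : (1:ℝ) ≤ Δ := by exact_mod_cast hΔ
  have hnD : (1:ℝ) ≤ Fintype.card V * Δ := by nlinarith
  have hge : 1 ≤ Fintype.card V * Δ / δ := by
    rw [le_div_iff₀ hδ]
    linarith
  have h0 : 0 ≤ Real.log (Fintype.card V * Δ / δ) / θ :=
    div_nonneg (Real.log_nonneg hge) hθ.le
  refine ⟨h0, h0, ?_⟩
  have h3 := h2 V G q θ Δ hq hθ hθ1 hd hD x0 μ _ hμ h0
  refine h3.trans ?_
  have e1 : -θ * (Real.log (Fintype.card V * Δ / δ) / θ) =
      -Real.log (Fintype.card V * Δ / δ) := by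
    field_simp
  rw [e1, Real.exp_neg, Real.exp_log (by linarith)]
  have hne : (Fintype.card V * Δ : ℝ) ≠ 0 := by linarith
  rw [inv_div]
  field_simp
  exact le_refl _

lemma bdd (q : ℕ) (θ : ℝ) {V : Type} [Fintype V] [DecidableEq V] (G : SimpleGraph V)
    (x0 : V → Fin q) (μ : (V → Fin q) → ℝ) (δ : ℝ) :
    BddBelow {t : ℝ | 0 ≤ t ∧ tv (law G q θ x0 t) μ ≤ δ} :=
  ⟨0, fun _ ht => ht.1⟩

lemma small (θ D C0 ε : ℝ) (hθ : 0 < θ) (hε : 0 < ε) :
    ∃ n0 : ℕ, ∀ n : ℕ, n0 ≤ n → 1 ≤ (1 / 20) * Real.log n - C0 ∧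
      2 * (D * (4 * D / θ * Real.log n) * (Real.exp (θ * (1 + C0)) *
        ((n : ℝ) ^ (θ / 20))⁻¹ + Real.exp θ * ((n : ℝ) ^ 4)⁻¹)) +
        4 * Real.exp (θ / 2) * (n : ℝ)⁻¹ + 6 * D * ((n : ℝ)⁻¹) ^ 3 ≤ ε ^ 3 / 2 := by
  have hlog : Tendsto (fun n : ℕ => Real.log (n : ℝ)) atTop atTop :=
    Real.tendsto_log_atTop.comp tendsto_natCast_atTop_atTop
  have hl : Tendsto (fun n : ℕ => Real.log n / n) atTop (𝓝 0) := by
    have h := (Real.tendsto_pow_log_div_mul_add_atTop 1 0 1 one_ne_zero).comp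
      tendsto_natCast_atTop_atTop
    refine h.congr (fun n => ?_)
    simp
  have hl2 : Tendsto (fun n : ℕ => Real.log n / (n : ℝ) ^ (θ / 20)) atTop (𝓝 0) :=
    ((isLittleO_log_rpow_atTop (by positivity : 0 < θ / 20)).tendsto_div_nhds_zero).comp
      tendsto_natCast_atTop_atTop
  have hi : Tendsto (fun n : ℕ => ((n : ℝ))⁻¹) atTop (𝓝 0) :=
    tendsto_inv_atTop_zero.comp tendsto_natCast_atTop_atTop
  have hlim : Tendsto (fun n : ℕ =>
      (2 * D * (4 * D / θ) * Real.exp (θ * (1 + C0))) * (Real.log n / (n : ℝ) ^ (θ / 20)) +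
      (2 * D * (4 * D / θ) * Real.exp θ) * (Real.log n / n * ((n : ℝ)⁻¹) ^ 3) +
      4 * Real.exp (θ / 2) * (n : ℝ)⁻¹ +
      6 * D * ((n : ℝ)⁻¹) ^ 3) atTop (𝓝 0) := by
    have := (((hl2.const_mul (2 * D * (4 * D / θ) * Real.exp (θ * (1 + C0)))).add
      ((hl.mul (hi.pow 3)).const_mul (2 * D * (4 * D / θ) * Real.exp θ))).add
      (hi.const_mul (4 * Real.exp (θ / 2)))).add
      ((hi.pow 3).const_mul (6 * D))
    simpa using this
  have hpos : 0 < ε ^ 3 / 2 := by positivity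
  have hev := hlim.eventually (ge_mem_nhds hpos)
  have hev2 := hlog.eventually_ge_atTop (20 * (1 + C0))
  have hev3 := hev.and hev2
  rw [eventually_atTop] at hev3
  obtain ⟨n0, h0⟩ := hev3
  refine ⟨n0, fun n hn => ?_⟩
  obtain ⟨h1, h2⟩ := h0 n hn
  refine ⟨by linarith, le_trans (le_of_eq ?_) h1⟩
  rw [div_eq_mul_inv, div_eq_mul_inv (Real.log (n : ℝ)), div_eq_mul_inv (Real.log (n : ℝ))]
  ring

theorem fin3_ (h1 : S_WIN2) (h2 : S_UPP) (_h3 : S_LAW) (h4 : S_FIN2) : S_FIN3 := by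
  intro q θ Δ η S ε hq hθ hθ1 hε hε1
  rcases Nat.eq_zero_or_pos Δ with hΔ0 | hΔ
  · refine ⟨0, ?_⟩
    intro V _ _ G ω x0 μ hy hn hμ
    exfalso
    have := hy.D1
    omega
  have hD1 : (1:ℝ) ≤ Δ := by exact_mod_cast hΔ
  have hq1 : 1 ≤ q := by omega
  have hq0 : (0 : ℝ) < q := by
    have : (2 : ℝ) ≤ q := by exact_mod_cast hq
    linarith
  obtain ⟨C0, hC0⟩ := h4 q θ Δ hq hθ hθ1.le (1 - ε) (by linarith) (by linarith)
  obtain ⟨n0, hn0⟩ := small θ Δ C0 ε hθ hε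
  -- constants
  have hcV : 0 < cV q θ Δ η S := by
    unfold cV cN
    positivity
  set r : ℝ := cV q θ Δ η S * Real.log (8 / ε ^ 3) with hr
  have he8 : 1 ≤ 8 / ε ^ 3 := by
    rw [le_div_iff₀ (by positivity), one_mul]
    have : ε ^ 3 ≤ 1 := pow_le_one₀ hε.le hε1.le
    linarith
  have hr0 : 0 ≤ r := mul_nonneg hcV.le (Real.log_nonneg he8)
  set C2 : ℝ := |Real.log ((n0:ℝ) * Δ / ε)| / θ with hC2
  have hC2n : 0 ≤ C2 := div_nonneg (abs_nonneg _) hθ.le
  refine ⟨C2 + 1 + r, ?_⟩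
  intro V _ _ G ω x0 μ hy hn hμ
  have hd := hy.d1
  have hD := hy.dD
  have hlog1 : 1 < Real.log (Fintype.card V) := one_lt_log hn
  have hn3 : (3:ℝ) ≤ Fintype.card V := by exact_mod_cast hn
  have hnpos : (0:ℝ) < Fintype.card V := by linarith
  obtain ⟨ha0, ha1⟩ := mem_tm h2 hq1 hθ hθ1.le hΔ G x0 μ hd hD hn hμ ε hε hε1
  obtain ⟨hb0, hb1⟩ := mem_tm h2 hq1 hθ hθ1.le hΔ G x0 μ hd hD hn hμ (1 - ε) (by linarith)
    (by linarith)
  have hle1 : tmix G q θ x0 μ ε ≤ Real.log (Fintype.card V * Δ / ε) / θ :=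
    csInf_le (bdd q θ G x0 μ ε) ha1
  have hge2 : 0 ≤ tmix G q θ x0 μ (1 - ε) := Real.sInf_nonneg (fun t ht => ht.1)
  by_cases hnn : n0 ≤ Fintype.card V
  · -- main case
    obtain ⟨hA, hB⟩ := hn0 (Fintype.card V) hnn
    have hlow := hC0 V G x0 μ hd hD hn hμ
    obtain ⟨s, hs, hslt⟩ := exists_lt_of_csInf_lt ⟨_, hb1⟩
      (show tmix G q θ x0 μ (1 - ε) < tmix G q θ x0 μ (1 - ε) + 1 by linarith)
    have hst : tmix G q θ x0 μ (1 - ε) ≤ s := csInf_le (bdd q θ G x0 μ (1 - ε)) hs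
    obtain ⟨hs0, hstv⟩ := hs
    have hs1 : 1 ≤ s := by linarith
    set u : ℝ := 4 / θ * Real.log (Fintype.card V) with hu
    have hu1 : 1 ≤ u := by
      have h5 : 1 ≤ 4 / θ := by
        rw [le_div_iff₀ hθ]
        linarith
      nlinarith
    set M : ℝ := 4 * Δ / θ * Real.log (Fintype.card V) with hM
    have hM0 : 0 ≤ M := mul_nonneg (by positivity) (by linarith)
    have hw := h1 V G q θ Δ η S ω hy x0 μ s r u M hμ hs1 hr0 hu1 hM0
    by_cases htv : tv (law G q θ x0 (s + r)) μ ≤ ε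
    · have : tmix G q θ x0 μ ε ≤ s + r :=
        csInf_le (bdd q θ G x0 μ ε) ⟨by linarith, htv⟩
      linarith
    · exfalso
      push Not at htv
      have e0 : Real.exp (-r / cV q θ Δ η S) = ε ^ 3 / 8 := by
        have : -r / cV q θ Δ η S = -Real.log (8 / ε ^ 3) := by
          rw [hr]
          field_simp
        rw [this, Real.exp_neg, Real.exp_log (by linarith), inv_div]
      have e1 : Real.exp (-θ * (s + r - 1)) ≤ Real.exp (θ * (1 + C0)) *
          ((Fintype.card V : ℝ) ^ (θ / 20))⁻¹ := by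
        rw [Real.rpow_def_of_pos hnpos, ← Real.exp_neg, ← Real.exp_add]
        apply Real.exp_le_exp.2
        have h6 : 1 / 20 * Real.log (Fintype.card V) - C0 ≤ s + r := by linarith
        have h7 := mul_le_mul_of_nonneg_left h6 hθ.le
        nlinarith
      have e2 : Real.exp (θ / 2 - θ * M / (2 * Δ)) =
          Real.exp (θ / 2) * ((Fintype.card V : ℝ) ^ 2)⁻¹ := by
        have : θ / 2 - θ * M / (2 * Δ) = θ / 2 + -(Real.log ((Fintype.card V : ℝ) ^ 2)) := by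
          rw [hM, Real.log_pow]
          have : (Δ:ℝ) ≠ 0 := by linarith
          field_simp
          push_cast
          ring
        rw [this, Real.exp_add, Real.exp_neg, Real.exp_log (by positivity)]
      have e3 : Real.exp (-θ * u) = ((Fintype.card V : ℝ) ^ 4)⁻¹ := by
        have : -θ * u = -(Real.log ((Fintype.card V : ℝ) ^ 4)) := by
          rw [hu, Real.log_pow]
          field_simp
          push_cast
          ring
        rw [this, Real.exp_neg, Real.exp_log (by positivity)]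
      have e4 : Real.exp (-θ * (u + r - 1)) ≤ Real.exp θ * ((Fintype.card V : ℝ) ^ 4)⁻¹ := by
        rw [← e3, ← Real.exp_add]
        apply Real.exp_le_exp.2
        have := mul_nonneg hθ.le hr0
        nlinarith
      rw [e0, e2, e3] at hw
      have t1 : Δ * M * (Real.exp (-θ * (s + r - 1)) + Real.exp (-θ * (u + r - 1))) ≤
          Δ * (4 * Δ / θ * Real.log (Fintype.card V)) * (Real.exp (θ * (1 + C0)) *
        ((Fintype.card V : ℝ) ^ (θ / 20))⁻¹ + Real.exp θ * ((Fintype.card V : ℝ) ^ 4)⁻¹) := by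
        rw [← hM]
        exact mul_le_mul_of_nonneg_left (add_le_add e1 e4) (mul_nonneg (by linarith) hM0)
      have t2 : 2 * (2 * Fintype.card V * (Real.exp (θ / 2) * ((Fintype.card V : ℝ) ^ 2)⁻¹)) =
          4 * Real.exp (θ / 2) * (Fintype.card V : ℝ)⁻¹ := by
        field_simp
        ring
      have t3 : 2 * (3 * (Fintype.card V * Δ * ((Fintype.card V : ℝ) ^ 4)⁻¹)) =
          6 * Δ * ((Fintype.card V : ℝ)⁻¹) ^ 3 := by
        field_simp
        ring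
      have h9 : ε ^ 2 < (tv (law G q θ x0 (s + r)) μ) ^ 2 := by
        nlinarith
      have h10 : ε ^ 3 < (tv (law G q θ x0 (s + r)) μ) ^ 2 *
          (1 - tv (law G q θ x0 s) μ) := by
        have h11 : ε ≤ 1 - tv (law G q θ x0 s) μ := by linarith
        calc ε ^ 3 = ε ^ 2 * ε := by ring
          _ < (tv (law G q θ x0 (s + r)) μ) ^ 2 * ε := mul_lt_mul_of_pos_right h9 hε
          _ ≤ _ := mul_le_mul_of_nonneg_left h11 (sq_nonneg _)
      linarith
  · push Not at hnn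
    have hnn' : (Fintype.card V : ℝ) ≤ n0 := by exact_mod_cast hnn.le
    have h4 : Real.log (Fintype.card V * Δ / ε) ≤ |Real.log ((n0:ℝ) * Δ / ε)| := by
      refine le_trans ?_ (le_abs_self _)
      apply Real.log_le_log
      · have : (0:ℝ) < Δ := by linarith
        positivity
      · exact div_le_div_of_nonneg_right (mul_le_mul_of_nonneg_right hnn' (by linarith)) hε.le
    have h5 : Real.log (Fintype.card V * Δ / ε) / θ ≤ C2 := div_le_div_of_nonneg_right h4 hθ.le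
    linarith

end Pool.Agent.W589.NW
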